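import Mathlib
namespace Q20.Rabbit
def Inside (a b x : ℚ) : Prop := (a < x ∧ x < b) ∨ (b < x ∧ x < a)

def Separates (a b c d : ℚ) : Prop :=
  a ≠ b ∧ c ≠ a ∧ c ≠ b ∧ d ≠ a ∧ d ≠ b ∧ (Inside a b c ↔ ¬ Inside a b d)

theorem sep_some {p x y z : ℚ} (h1 : p ≠ x) (h2 : p ≠ y) (h3 : p ≠ z) (h4 : x ≠ y) (h5 : y ≠ z)
    (h6 : z ≠ x) : Separates p x y z ∨ Separates p y z x ∨ Separates p z x y := by
  unfold Separates Inside
  grind

theorem sep_excl {p x y z : ℚ} (h : Separates p x y z) : ¬ Separates p y z x := by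
  unfold Separates Inside at *
  grind

theorem sep_excl' {p x y z : ℚ} (h : Separates p x y z) : ¬ Separates p z x y := by
  unfold Separates Inside at *
  grind

theorem sep_swap {a b c d : ℚ} (h : Separates a b c d) : Separates c d a b := by
  unfold Separates Inside at *
  grind

theorem sep_left {a b c d : ℚ} (h : Separates a b c d) : Separates b a c d := by
  unfold Separates Inside at *
  grind

theorem sep_right {a b c d : ℚ} (h : Separates a b c d) : Separates a b d c := by
  unfold Separates Inside at *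
  grind

theorem sep_trans {a b c d e : ℚ} (h : Separates a b c d) (h' : ¬ Separates a b d e) (ha : e ≠ a)
    (hb : e ≠ b) : Separates a b c e := by
  unfold Separates at *
  grind

theorem not_sep {a b c d e : ℚ} (h : Separates a b c d) (h' : Separates a b d e) :
    ¬ Separates a b c e := by
  unfold Separates at *
  tauto

theorem no_interlace {a b c d e f : ℚ} (h1 : Separates a b c e) (h2 : Separates a b c f)
    (h3 : Separates a b d e) : ¬ Separates c d e f := by
  unfold Separates Inside at *
  grind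

theorem sep_hex {x0 x1 x2 y0 y1 y2 : ℚ} (h0 : Separates y0 x0 x1 x2) (h1 : Separates y1 x1 x2 x0)
    (h2 : Separates y2 x2 x0 x1) : Separates x0 y0 y1 y2 := by
  have e1 : y1 ≠ x0 := by unfold Separates at h1; grind
  have e2 : y2 ≠ x0 := by unfold Separates at h2; grind
  have e3 : y0 ≠ x0 := by unfold Separates at h0; grind
  have e4 : y0 ≠ x1 := by unfold Separates at h0; grind
  have e5 : y0 ≠ x2 := by unfold Separates at h0; grind
  have e6 : y1 ≠ y0 := by rintro rfl; exact sep_excl h0 h1
  have e7 : y2 ≠ y0 := by rintro rfl; exact sep_excl' h0 h2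
  have n1 : ¬ Separates x0 x1 x2 y0 := fun h => sep_excl' h0 (sep_left (sep_swap h))
  have t1 : Separates x0 x1 y2 y0 := sep_trans (sep_swap h2) n1 e3 e4
  have n2 : ¬ Separates x2 x0 x1 y0 := fun h => sep_excl h0 (sep_left (sep_swap h))
  have t2 : Separates x2 x0 y1 y0 := sep_trans (sep_swap h1) n2 e5 e3
  have n3 : ¬ Separates x0 y0 x1 y2 := sep_excl' t1
  have n4 : ¬ Separates x0 y0 x2 y1 := sep_excl' (sep_left t2)
  have t3 : Separates x0 y0 x2 y2 := sep_trans (sep_right (sep_left h0)) n3 e2 e7
  exact sep_right (sep_trans (sep_right t3) n4 e1 e6)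

theorem sep_contra {x0 x1 x2 y0 y1 y2 z0 : ℚ} (h0 : Separates y0 x0 x1 x2)
    (h1 : Separates y1 x1 x2 x0)
    (h2 : Separates y2 x2 x0 x1) (h3 : Separates z0 x0 x1 x2) (h4 : Separates z0 y0 y1 y2) :
    False := by
  have e1 : y1 ≠ x1 := by unfold Separates at h1; grind
  have e2 : y1 ≠ x2 := by unfold Separates at h1; grind
  have e3 : y2 ≠ x1 := by unfold Separates at h2; grind
  have e4 : y2 ≠ x2 := by unfold Separates at h2; grind
  have n5 : ¬ Separates x1 x2 x0 y1 := fun h => sep_excl' h1 (sep_left (sep_swap h))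
  have n6 : ¬ Separates x1 x2 x0 y2 := fun h => sep_excl h2 (sep_left (sep_swap h))
  exact no_interlace (sep_trans (sep_swap h3) n5 e1 e2) (sep_trans (sep_swap h3) n6 e3 e4)
    (sep_trans (sep_swap h0) n5 e1 e2) h4

/-- Two commuting permutations of order three which preserve separation, such that no nontrivial
product of their powers has a fixed point, do not exist. -/
theorem no_action (s t : ℚ → ℚ)
    (hs : ∀ a b c d, Separates a b c d → Separates (s a) (s b) (s c) (s d))
    (ht : ∀ a b c d, Separates a b c d → Separates (t a) (t b) (t c) (t d))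
    (hs3 : ∀ a, s (s (s a)) = a) (ht3 : ∀ a, t (t (t a)) = a) (hst : ∀ a, s (t a) = t (s a))
    (h1 : ∀ a, s a ≠ a) (h2 : ∀ a, t a ≠ a) (h3 : ∀ a, t a ≠ s a) (h4 : ∀ a, t a ≠ s (s a)) :
    False := by
  -- it suffices to find `x` with `t x` opposite to `x`
  have key : ∀ (u : ℚ → ℚ) (hu : ∀ a b c d, Separates a b c d → Separates (u a) (u b) (u c) (u d))
      (hu3 : ∀ a, u (u (u a)) = a) (hsu : ∀ a, s (u a) = u (s a)) (x : ℚ),
      ¬ Separates (u x) x (s x) (s (s x)) := by
    intro u hu hu3 hsu x h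
    have g1 : Separates (u (s x)) (s x) (s (s x)) x := by
      have := hs _ _ _ _ h
      rwa [hs3, hsu] at this
    have g2 : Separates (u (s (s x))) (s (s x)) x (s x) := by
      have := hs _ _ _ _ g1
      rwa [hs3, hsu] at this
    have g3 := sep_hex h g1 g2
    have g4 : Separates (u (u x)) x (s x) (s (s x)) := by
      have := hu _ _ _ _ (hu _ _ _ _ g3)
      rw [hu3, hu3, hu3] at this
      exact this
    have g5 : Separates (u (u x)) (u x) (u (s x)) (u (s (s x))) := hu _ _ _ _ h
    exact sep_contra h g1 g2 g4 g5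
  have d1 := h1 0
  have d2 := h2 0
  have d3 := h3 0
  have d4 := h4 0
  have d5 : s 0 ≠ s (s 0) := fun h => h1 (s 0) h.symm
  have d6 : s (s 0) ≠ 0 := by
    intro h
    have := hs3 0
    rw [h] at this
    exact h1 0 this
  rcases sep_some d2 d3 d4 d1.symm d5 d6 with h | h | h
  · exact key t ht ht3 hst 0 h
  · -- `t 0` opposite to `s 0`
    refine key (fun a => s (s (t a))) (fun a b c d h => hs _ _ _ _ (hs _ _ _ _ (ht _ _ _ _ h)))
      ?_ ?_ 0 ?_
    · intro a
      change s (s (t (s (s (t (s (s (t a)))))))) = a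
      rw [← hst, ← hst, ← hst, ← hst, hs3, ← hst, ← hst, hs3, ht3]
    · intro a
      change s (s (s (t a))) = s (s (t (s a)))
      rw [← hst]
    · change Separates (s (s (t 0))) 0 (s 0) (s (s 0))
      have := hs _ _ _ _ (hs _ _ _ _ h)
      rwa [hs3] at this
  · refine key (fun a => s (t a)) (fun a b c d h => hs _ _ _ _ (ht _ _ _ _ h)) ?_ ?_ 0 ?_
    · intro a
      change s (t (s (t (s (t a))))) = a
      rw [← hst, ← hst, ← hst, hs3, ht3]
    · intro a
      change s (s (t a)) = s (t (s a))
      rw [← hst]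
    · change Separates (s (t 0)) 0 (s 0) (s (s 0))
      have := hs _ _ _ _ h
      rwa [hs3] at this

end Q20.Rabbit
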