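import Mathlib

/-!
Betweenness in a tree, and fixed vertices of an automorphism of order three.
-/

namespace Q20.Rabbit

variable {V : Type*} {G : SimpleGraph V}

theorem length_eq_dist (hG : G.IsTree) {u v : V} {p : G.Walk u v} (hp : p.IsPath) :
    p.length = G.dist u v := by
  obtain ⟨q, hq, hl⟩ := hG.connected.exists_path_of_dist u v
  have := (hG.isAcyclic.subsingleton_path u v).elim ⟨p, hp⟩ ⟨q, hq⟩
  have h2 : p = q := congrArg Subtype.val this
  rw [h2, hl]

/-- `m` lies on the geodesic from `x` to `y`. -/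
def Mid (G : SimpleGraph V) (x m y : V) : Prop := G.dist x m + G.dist m y = G.dist x y

theorem mid_of_mem (hG : G.IsTree) {x y m : V} {p : G.Walk x y} (hp : p.IsPath)
    (hm : m ∈ p.support) : Mid G x m y := by
  classical
  unfold Mid
  rw [← length_eq_dist hG (hp.takeUntil hm), ← length_eq_dist hG (hp.dropUntil hm),
    ← length_eq_dist hG hp, ← SimpleGraph.Walk.length_append, SimpleGraph.Walk.take_spec]

/-- On a geodesic path the vertex at a given distance. -/
theorem mid_getVert (hG : G.IsTree) {x y m : V} {p : G.Walk x y} (hp : p.IsPath)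
    (hm : Mid G x m y) : m = p.getVert (G.dist x m) ∧ m ∈ p.support := by
  obtain ⟨q, hq⟩ := hG.connected.exists_walk_length_eq_dist x m
  obtain ⟨r, hr⟩ := hG.connected.exists_walk_length_eq_dist m y
  have hl : (q.append r).length = G.dist x y := by
    rw [SimpleGraph.Walk.length_append, hq, hr]; exact hm
  have hP : (q.append r).IsPath := SimpleGraph.Walk.isPath_of_length_eq_dist _ hl
  have h1 : p = q.append r :=
    congrArg Subtype.val ((hG.isAcyclic.subsingleton_path x y).elim ⟨p, hp⟩ ⟨q.append r, hP⟩)
  rw [h1]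
  constructor
  · rw [← hq]
    rw [SimpleGraph.Walk.getVert_append]
    simp
  · rw [SimpleGraph.Walk.mem_support_append_iff]
    right; exact r.start_mem_support

theorem mid_unique (hG : G.IsTree) {x y m m' : V} (hm : Mid G x m y) (hm' : Mid G x m' y)
    (hd : G.dist x m = G.dist x m') : m = m' := by
  obtain ⟨p, hp, -⟩ := hG.connected.exists_path_of_dist x y
  rw [(mid_getVert hG hp hm).1, (mid_getVert hG hp hm').1, hd]

theorem mid_symm {x m y : V} (h : Mid G x m y) : Mid G y m x := by
  unfold Mid at *
  rw [G.dist_comm (u := y) (v := m), G.dist_comm (u := m) (v := x), G.dist_comm (u := y) (v := x)]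
  omega

theorem mid_unique' (hG : G.IsTree) {x y m m' : V} (hm : Mid G x m y) (hm' : Mid G x m' y)
    (hd : G.dist m y = G.dist m' y) : m = m' := by
  refine mid_unique hG hm hm' ?_
  unfold Mid at *
  omega

theorem mid_or (hG : G.IsTree) {x y m : V} (hm : Mid G x m y) (z : V) :
    Mid G x m z ∨ Mid G z m y := by
  classical
  obtain ⟨p, hp, -⟩ := hG.connected.exists_path_of_dist x z
  obtain ⟨q, hq, -⟩ := hG.connected.exists_path_of_dist z y
  have h1 := (mid_getVert hG ((p.append q).bypass_isPath) hm).2
  have h2 := SimpleGraph.Walk.support_bypass_subset_support _ h1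
  rw [SimpleGraph.Walk.mem_support_append_iff] at h2
  rcases h2 with h2 | h2
  · exact Or.inl (mid_of_mem hG hp h2)
  · exact Or.inr (mid_of_mem hG hq h2)

theorem exists_mid (hG : G.IsTree) {x y : V} {a b : ℕ} (h : G.dist x y = a + b) :
    ∃ m, G.dist x m = a ∧ G.dist m y = b := by
  obtain ⟨p, hp⟩ := hG.connected.exists_walk_length_eq_dist x y
  refine ⟨p.getVert a, ?_⟩
  have h1 : G.dist x (p.getVert a) ≤ a := by
    refine (SimpleGraph.dist_le (p.take a)).trans ?_
    rw [SimpleGraph.Walk.take_length]
    exact min_le_left _ _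
  have h2 : G.dist (p.getVert a) y ≤ b := by
    refine (SimpleGraph.dist_le (p.drop a)).trans ?_
    rw [SimpleGraph.Walk.drop_length, hp, h]
    omega
  have h3 := hG.connected.dist_triangle (u := x) (v := p.getVert a) (w := y)
  omega

theorem dist_map_le (hG : G.Connected) (g : G ≃g G) (u v : V) :
    G.dist (g u) (g v) ≤ G.dist u v := by
  obtain ⟨p, hp⟩ := hG.exists_walk_length_eq_dist u v
  rw [← hp, ← p.length_map g.toHom]
  exact SimpleGraph.dist_le _

theorem dist_map (hG : G.IsTree) (g : G ≃g G) (u v : V) : G.dist (g u) (g v) = G.dist u v := by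
  refine le_antisymm (dist_map_le hG.connected g u v) ?_
  have := dist_map_le hG.connected g.symm (g u) (g v)
  rwa [g.symm_apply_apply, g.symm_apply_apply] at this

theorem mid_map (hG : G.IsTree) (g : G ≃g G) {x m y : V} (h : Mid G x m y) :
    Mid G (g x) (g m) (g y) := by
  unfold Mid at *
  rw [dist_map hG, dist_map hG, dist_map hG, h]

theorem walk_parity (t : V → Prop) (ht : ∀ u v, G.Adj u v → (t u ↔ ¬ t v)) {u v : V}
    (p : G.Walk u v) : (t u ↔ t v) ↔ Even p.length := by
  induction p with
  | nil => simp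
  | cons h p ih =>
    rw [SimpleGraph.Walk.length_cons, Nat.even_add_one, ← ih, ht _ _ h]
    tauto

/-- An automorphism of order three of a tree which preserves the types fixes a vertex. -/
theorem exists_fixed (hG : G.IsTree) (t : V → Prop) (ht : ∀ u v, G.Adj u v → (t u ↔ ¬ t v))
    (g : G ≃g G) (h3 : ∀ v, g (g (g v)) = v) (hg : ∀ v, t (g v) ↔ t v) : ∃ v, g v = v := by
  obtain ⟨x⟩ := hG.connected.nonempty
  obtain ⟨p, hp⟩ := hG.connected.exists_walk_length_eq_dist x (g x)
  have hev : Even p.length := (walk_parity t ht p).1 (hg x).symm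
  obtain ⟨k, hk⟩ := hev
  rw [hp] at hk
  obtain ⟨m, hm1, hm2⟩ := exists_mid hG hk
  have hM : Mid G x m (g x) := by unfold Mid; rw [hm1, hm2, hk]
  have hM1 := mid_map hG g hM
  have hM2 := mid_map hG g hM1
  rw [h3] at hM2
  refine ⟨m, ?_⟩
  rcases mid_or hG hM (g (g x)) with h | h
  · -- `m` lies on the side from `x` to `g (g x)`
    have h1 : G.dist x (g (g m)) = G.dist x m := by
      rw [hm1, ← hm2, ← dist_map hG g m (g x), ← dist_map hG g (g m) (g (g x)), h3,
        G.dist_comm]
    have h2 := mid_unique hG h (mid_symm hM2) h1.symm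
    calc g m = g (g (g m)) := by rw [← h2]
      _ = m := h3 m
  · have h1 : G.dist (g m) (g x) = G.dist m (g x) := by
      rw [dist_map hG, hm2, G.dist_comm, hm1]
    exact (mid_unique' hG h (mid_symm hM1) h1.symm).symm

end Q20.Rabbit
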