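import Mathlib
import Pool.Agent.Q20.Rabbit.Tree
import Pool.Agent.Q20.Rabbit.Sep

/-!
Universal groups of biregular trees, and elements of order three.
-/

namespace Q20.Rabbit

variable {V : Type*} {T : SimpleGraph V} {circ : V → Prop} {col : V → ℚ}

/-- `T` is the `(n, ∞)`-biregular tree: `circ` is the set of the vertices of infinite degree (the
circles), the other vertices (the cut points) have degree `n`, and `col` is a legal colouring: around
each circle the cut points are coloured bijectively by `ℚ`. -/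
structure Legal (n : ℕ) (T : SimpleGraph V) (circ : V → Prop) (col : V → ℚ) : Prop where
  tree : T.IsTree
  types : ∀ u v, T.Adj u v → (circ u ↔ ¬ circ v)
  colors : ∀ c, circ c → ∀ q : ℚ, ∃! p, T.Adj c p ∧ col p = q
  degree : ∀ p, ¬ circ p → (T.neighborSet p).encard = n

/-- The automorphisms of the tree which preserve the types of the vertices and whose local action
at each circle preserves the separation relation. -/
def U (T : SimpleGraph V) (circ : V → Prop) (col : V → ℚ) : Subgroup (T ≃g T) where
  carrier := {g | (∀ v, circ (g v) ↔ circ v) ∧ ∀ c, circ c → ∀ p₁ p₂ p₃ p₄, T.Adj c p₁ →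
    T.Adj c p₂ → T.Adj c p₃ → T.Adj c p₄ →
    (Separates (col (g p₁)) (col (g p₂)) (col (g p₃)) (col (g p₄)) ↔
      Separates (col p₁) (col p₂) (col p₃) (col p₄))}
  one_mem' := ⟨fun _ => Iff.rfl, fun _ _ _ _ _ _ _ _ _ _ => Iff.rfl⟩
  mul_mem' {g h} hg hh := by
    refine ⟨fun v => ?_, fun c hc p₁ p₂ p₃ p₄ h₁ h₂ h₃ h₄ => ?_⟩
    · exact (hg.1 (h v)).trans (hh.1 v)
    · have e := hg.2 (h c) ((hh.1 c).2 hc) (h p₁) (h p₂) (h p₃) (h p₄) (h.map_rel_iff.2 h₁)
        (h.map_rel_iff.2 h₂) (h.map_rel_iff.2 h₃) (h.map_rel_iff.2 h₄)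
      exact e.trans (hh.2 c hc p₁ p₂ p₃ p₄ h₁ h₂ h₃ h₄)
  inv_mem' {g} hg := by
    have hc' : ∀ v, circ (g⁻¹ v) ↔ circ v := by
      intro v
      have := hg.1 (g⁻¹ v)
      have e : g (g⁻¹ v) = v := g.apply_symm_apply v
      rw [e] at this
      exact this.symm
    refine ⟨hc', fun c hc p₁ p₂ p₃ p₄ h₁ h₂ h₃ h₄ => ?_⟩
    have hadj : ∀ {a b}, T.Adj a b → T.Adj (g⁻¹ a) (g⁻¹ b) := fun h => g.symm.map_rel_iff.2 h
    have e := hg.2 (g⁻¹ c) ((hc' c).2 hc) (g⁻¹ p₁) (g⁻¹ p₂) (g⁻¹ p₃) (g⁻¹ p₄) (hadj h₁)
      (hadj h₂) (hadj h₃) (hadj h₄)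
    have ee : ∀ p, g (g⁻¹ p) = p := fun p => g.apply_symm_apply p
    rw [ee, ee, ee, ee] at e
    exact e.symm

theorem mul_app (g h : T ≃g T) (v : V) : (g * h) v = g (h v) := rfl

theorem adj_map {g : T ≃g T} {u v : V} (h : T.Adj u v) : T.Adj (g u) (g v) := g.map_rel_iff.2 h

/-- In a tree with cut points of degree three an element of order three which fixes an edge is
trivial. First step: it fixes the neighbours. -/
theorem fixes_nbr (hL : Legal 3 T circ col) {g : T ≃g T} (hg : g ∈ U T circ col)
    (h3 : ∀ v, g (g (g v)) = v) {w p₀ : V} (hw : g w = w) (h0 : T.Adj w p₀) (hp₀ : g p₀ = p₀)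
    {p : V} (hp : T.Adj w p) : g p = p := by
  by_contra hne
  have hadj : ∀ q, T.Adj w q → T.Adj w (g q) := by
    intro q hq
    have := adj_map (g := g) hq
    rwa [hw] at this
  have a1 := hadj _ hp
  have a2 := hadj _ a1
  have n1 : p₀ ≠ p := by rintro rfl; exact hne hp₀
  have n2 : p₀ ≠ g p := by
    intro h
    have := g.injective (hp₀.trans h)
    exact n1 this
  have n3 : p₀ ≠ g (g p) := by
    intro h
    have := g.injective (hp₀.trans h)
    exact n2 this
  have n4 : p ≠ g p := fun h => hne h.symm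
  have n5 : g p ≠ g (g p) := fun h => n4 (g.injective h)
  have n6 : g (g p) ≠ p := by
    intro h
    have := h3 p
    rw [h] at this
    exact hne this
  by_cases hc : circ w
  · have hinj : ∀ {a b}, T.Adj w a → T.Adj w b → a ≠ b → col a ≠ col b := by
      intro a b ha hb hab hcol
      exact hab ((hL.colors w hc (col b)).unique ⟨ha, hcol⟩ ⟨hb, rfl⟩)
    have e1 := (hg.2 w hc p₀ p (g p) (g (g p)) h0 hp a1 a2)
    have e2 := (hg.2 w hc p₀ (g p) (g (g p)) p h0 a1 a2 hp)
    rw [hp₀, h3] at e1 e2
    rcases sep_some (hinj h0 hp n1) (hinj h0 a1 n2) (hinj h0 a2 n3) (hinj hp a1 n4)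
      (hinj a1 a2 n5) (hinj a2 hp n6) with h | h | h
    · exact sep_excl h (e1.2 h)
    · exact sep_excl h (e2.2 h)
    · exact sep_excl' (e2.1 h) ((e1.1 (e2.1 h)))
  · have hd := hL.degree w hc
    have hsub : ({p₀, p, g p, g (g p)} : Set V) ⊆ T.neighborSet w := by
      intro x hx
      simp only [Set.mem_insert_iff, Set.mem_singleton_iff] at hx
      rcases hx with rfl | rfl | rfl | rfl
      · exact h0
      · exact hp
      · exact a1
      · exact a2
    have hcard : ({p₀, p, g p, g (g p)} : Set V).encard = 4 := by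
      rw [Set.encard_insert_of_notMem, Set.encard_insert_of_notMem, Set.encard_insert_of_notMem,
        Set.encard_singleton]
      · norm_num
      · simpa using n5
      · simp only [Set.mem_insert_iff, Set.mem_singleton_iff, not_or]
        exact ⟨n4, n6.symm⟩
      · simp only [Set.mem_insert_iff, Set.mem_singleton_iff, not_or]
        exact ⟨n1, n2, n3⟩
    have := Set.encard_le_encard hsub
    rw [hcard, hd] at this
    exact absurd this (by decide)

theorem fixes_all (hL : Legal 3 T circ col) {g : T ≃g T} (hg : g ∈ U T circ col)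
    (h3 : ∀ v, g (g (g v)) = v) {w p₀ : V} (hw : g w = w) (h0 : T.Adj w p₀) (hp₀ : g p₀ = p₀)
    (v : V) : g v = v := by
  obtain ⟨q⟩ := hL.tree.connected.preconnected w v
  have key : ∀ {a b : V} (q : T.Walk a b), g a = a → (∃ p, T.Adj a p ∧ g p = p) → g b = b := by
    intro a b q
    induction q with
    | nil => exact fun h _ => h
    | cons hadj q ih =>
      rintro ha ⟨p, hap, hp⟩
      exact ih (fixes_nbr hL hg h3 ha hap hp hadj) ⟨_, hadj.symm, ha⟩
  exact key q hw ⟨p₀, h0, hp₀⟩

/-- A nontrivial element of order three fixes at most one vertex. -/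
theorem fixed_unique (hL : Legal 3 T circ col) {g : T ≃g T} (hg : g ∈ U T circ col)
    (h3 : ∀ v, g (g (g v)) = v) (hne : ∃ v, g v ≠ v) {u w : V} (hu : g u = u) (hw : g w = w) :
    u = w := by
  by_contra huw
  have hpos : 0 < T.dist u w := hL.tree.connected.pos_dist_of_ne huw
  obtain ⟨m, hm1, hm2⟩ := exists_mid hL.tree (x := u) (y := w) (a := 1) (b := T.dist u w - 1)
    (by omega)
  have hM : Mid T u m w := by unfold Mid; omega
  have hM' := mid_map hL.tree g hM
  rw [hu, hw] at hM'
  have hd : T.dist u (g m) = T.dist u m := by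
    conv_lhs => rw [← hu]
    exact dist_map hL.tree g u m
  have hgm : g m = m := mid_unique hL.tree hM' hM hd
  obtain ⟨v, hv⟩ := hne
  exact hv (fixes_all hL hg h3 hu (SimpleGraph.dist_eq_one_iff_adj.1 hm1) hgm v)

/-- The group does not contain a product of two groups of order three. -/
theorem no_three_squared (hL : Legal 3 T circ col) {g h : T ≃g T} (hg : g ∈ U T circ col)
    (hh : h ∈ U T circ col) (hg3 : g * g * g = 1) (hh3 : h * h * h = 1) (hgh : g * h = h * g)
    (h1 : g ≠ 1) (h2 : h ≠ 1) (h3 : g * h ≠ 1) (h4 : g * g * h ≠ 1) : False := by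
  have G3 : ∀ v, g (g (g v)) = v := fun v => DFunLike.congr_fun hg3 v
  have H3 : ∀ v, h (h (h v)) = v := fun v => DFunLike.congr_fun hh3 v
  have GH : ∀ v, g (h v) = h (g v) := fun v => DFunLike.congr_fun hgh v
  have nontriv : ∀ k : T ≃g T, k ≠ 1 → ∃ v, k v ≠ v := by
    intro k hk
    by_contra hcon
    push Not at hcon
    exact hk (RelIso.ext hcon)
  -- an element of order three which fixes an edge is trivial
  have edge : ∀ k ∈ U T circ col, (∀ v, k (k (k v)) = v) → k ≠ 1 → ∀ a b, T.Adj a b → k a = a →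
      k b ≠ b := by
    intro k hk hk3 hk1 a b hab ha hb
    obtain ⟨v, hv⟩ := nontriv k hk1
    exact hv (fixes_all hL hk hk3 ha hab hb v)
  obtain ⟨v, hv⟩ := exists_fixed hL.tree circ hL.types g G3 hg.1
  have hhv : h v = v := by
    refine fixed_unique hL hg G3 (nontriv g h1) ?_ hv
    rw [GH, hv]
  have ghU : g * h ∈ U T circ col := mul_mem hg hh
  have gghU : g * g * h ∈ U T circ col := mul_mem (mul_mem hg hg) hh
  have gh3 : ∀ v, (g * h) ((g * h) ((g * h) v)) = v := by
    intro v
    change g (h (g (h (g (h v))))) = v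
    rw [GH, GH, GH, GH, GH, GH, H3, G3]
  have ggh3 : ∀ v, (g * g * h) ((g * g * h) ((g * g * h) v)) = v := by
    intro v
    change g (g (h (g (g (h (g (g (h v)))))))) = v
    simp only [GH, H3, G3]
  have adjf : ∀ (k : T ≃g T), k v = v → ∀ p, T.Adj v p → T.Adj v (k p) := by
    intro k hk p hp
    have := adj_map (g := k) hp
    rwa [hk] at this
  by_cases hc : circ v
  · -- the local actions at a circle
    choose f hf using fun q => (hL.colors v hc q)
    have hf1 : ∀ q, T.Adj v (f q) := fun q => (hf q).1.1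
    have hf2 : ∀ q, col (f q) = q := fun q => (hf q).1.2
    have hf3 : ∀ p, T.Adj v p → f (col p) = p := fun p hp => ((hf (col p)).2 p ⟨hp, rfl⟩).symm
    have fp : ∀ (k : T ≃g T), k v = v → ∀ q, f (col (k (f q))) = k (f q) := by
      intro k hk q
      exact hf3 _ (adjf k hk _ (hf1 q))
    refine no_action (fun q => col (g (f q))) (fun q => col (h (f q))) ?_ ?_ ?_ ?_ ?_ ?_ ?_ ?_ ?_
    · intro a b c d hs
      have := (hg.2 v hc (f a) (f b) (f c) (f d) (hf1 a) (hf1 b) (hf1 c) (hf1 d)).2
      rw [hf2, hf2, hf2, hf2] at this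
      exact this hs
    · intro a b c d hs
      have := (hh.2 v hc (f a) (f b) (f c) (f d) (hf1 a) (hf1 b) (hf1 c) (hf1 d)).2
      rw [hf2, hf2, hf2, hf2] at this
      exact this hs
    · intro a
      simp only [fp g hv]
      rw [hf3 _ (adjf g hv _ (adjf g hv _ (hf1 a))), G3, hf2]
    · intro a
      simp only [fp h hhv]
      rw [hf3 _ (adjf h hhv _ (adjf h hhv _ (hf1 a))), H3, hf2]
    · intro a
      simp only [fp h hhv, fp g hv]
      rw [GH]
    · intro a ha
      have ha' : col (g (f a)) = a := ha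
      have : g (f a) = f a := by rw [← hf3 (g (f a)) (adjf g hv _ (hf1 a)), ha']
      exact edge g hg G3 h1 v (f a) (hf1 a) hv this
    · intro a ha
      have ha' : col (h (f a)) = a := ha
      have : h (f a) = f a := by rw [← hf3 (h (f a)) (adjf h hhv _ (hf1 a)), ha']
      exact edge h hh H3 h2 v (f a) (hf1 a) hhv this
    · intro a ha
      have ha' : col (h (f a)) = col (g (f a)) := ha
      have e1 : h (f a) = g (f a) := by
        rw [← hf3 (h (f a)) (adjf h hhv _ (hf1 a)), ha', hf3 (g (f a)) (adjf g hv _ (hf1 a))]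
      refine edge (g * g * h) gghU ggh3 h4 v (f a) (hf1 a) ?_ ?_
      · change g (g (h v)) = v
        rw [hhv, hv, hv]
      · change g (g (h (f a))) = f a
        rw [e1, G3]
    · intro a ha
      have ha' : col (h (f a)) = col (g (f (col (g (f a))))) := ha
      rw [fp g hv] at ha'
      have e1 : h (f a) = g (g (f a)) := by
        rw [← hf3 (h (f a)) (adjf h hhv _ (hf1 a)), ha',
          hf3 (g (g (f a))) (adjf g hv _ (adjf g hv _ (hf1 a)))]
      refine edge (g * h) ghU gh3 h3 v (f a) (hf1 a) ?_ ?_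
      · change g (h v) = v
        rw [hhv, hv]
      · change g (h (f a)) = f a
        rw [e1, G3]
  · -- the action on the three circles at a cut point
    have hd := hL.degree v hc
    have hne : (T.neighborSet v).Nonempty := by
      rw [← Set.encard_pos, hd]
      decide
    obtain ⟨p, hp⟩ := hne
    have hp : T.Adj v p := hp
    have a1 := adjf g hv _ hp
    have a2 := adjf g hv _ a1
    have n1 : g p ≠ p := edge g hg G3 h1 v p hp hv
    have n2 : g (g p) ≠ g p := edge g hg G3 h1 v (g p) a1 hv
    have n3 : g (g p) ≠ p := by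
      intro hh
      have := G3 p
      rw [hh] at this
      exact n1 this
    have n4 : h p ≠ p := edge h hh H3 h2 v p hp hhv
    have n5 : h p ≠ g p := by
      intro e
      refine edge (g * g * h) gghU ggh3 h4 v p hp ?_ ?_
      · change g (g (h v)) = v
        rw [hhv, hv, hv]
      · change g (g (h p)) = p
        rw [e, G3]
    have n6 : h p ≠ g (g p) := by
      intro e
      refine edge (g * h) ghU gh3 h3 v p hp ?_ ?_
      · change g (h v) = v
        rw [hhv, hv]
      · change g (h p) = p
        rw [e, G3]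
    have hsub : ({h p, p, g p, g (g p)} : Set V) ⊆ T.neighborSet v := by
      intro x hx
      simp only [Set.mem_insert_iff, Set.mem_singleton_iff] at hx
      rcases hx with rfl | rfl | rfl | rfl
      · exact adjf h hhv _ hp
      · exact hp
      · exact a1
      · exact a2
    have hcard : ({h p, p, g p, g (g p)} : Set V).encard = 4 := by
      rw [Set.encard_insert_of_notMem, Set.encard_insert_of_notMem, Set.encard_insert_of_notMem,
        Set.encard_singleton]
      · norm_num
      · simpa using n2.symm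
      · simp only [Set.mem_insert_iff, Set.mem_singleton_iff, not_or]
        exact ⟨n1.symm, n3.symm⟩
      · simp only [Set.mem_insert_iff, Set.mem_singleton_iff, not_or]
        exact ⟨n4, n5, n6⟩
    have := Set.encard_le_encard hsub
    rw [hcard, hd] at this
    exact absurd this (by decide)

end Q20.Rabbit
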