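import Mathlib
import Pool.Agent.Q20.Rabbit.Univ

/-!
The standard model of the `(m + 1, ∞)`-biregular tree with a legal colouring.
-/

namespace Q20.Rabbit

/-- A graph with a level function such that every vertex except the root has a lower neighbour and
every vertex has at most one neighbour which is not higher is a tree. -/
theorem isTree_of_level {V : Type*} (G : SimpleGraph V) (lev : V → ℕ) (r : V)
    (h1 : ∀ v, v ≠ r → ∃ w, G.Adj v w ∧ lev w < lev v)
    (h2 : ∀ v a b, G.Adj v a → G.Adj v b → lev a ≤ lev v → lev b ≤ lev v → a = b) : G.IsTree := by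
  have hreach : ∀ n v, lev v = n → G.Reachable v r := by
    intro n
    induction n using Nat.strong_induction_on with
    | _ n ih =>
      intro v hv
      by_cases hvr : v = r
      · rw [hvr]
      · obtain ⟨w, hw, hl⟩ := h1 v hvr
        exact hw.reachable.trans (ih (lev w) (hv ▸ hl) w rfl)
  have hconn : G.Connected :=
    { preconnected := fun u v => (hreach _ u rfl).trans (hreach _ v rfl).symm
      nonempty := ⟨r⟩ }
  refine ⟨hconn, ?_⟩
  intro v c hc
  classical
  -- a vertex of the cycle with maximal level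
  obtain ⟨w, hw, hmax⟩ : ∃ w ∈ c.support, ∀ x ∈ c.support, lev x ≤ lev w := by
    have hfin : (c.support.toFinset).Nonempty := ⟨v, by simp⟩
    obtain ⟨w, hw, hm⟩ := Finset.exists_max_image c.support.toFinset lev hfin
    exact ⟨w, by simpa using hw, fun x hx => hm x (by simpa using hx)⟩
  have hc' := hc.rotate hw
  have hne := hc'.snd_ne_penultimate
  have hnn : ¬ (c.rotate w hw).Nil := hc'.not_nil
  have hs : (c.rotate w hw).snd ∈ c.support := by
    rw [← SimpleGraph.Walk.mem_support_rotate_iff c w hw]
    exact SimpleGraph.Walk.getVert_mem_support _ _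
  have hp : (c.rotate w hw).penultimate ∈ c.support := by
    rw [← SimpleGraph.Walk.mem_support_rotate_iff c w hw]
    exact SimpleGraph.Walk.getVert_mem_support _ _
  refine hne (h2 w _ _ (SimpleGraph.Walk.adj_snd hnn) (SimpleGraph.Walk.adj_penultimate hnn).symm
    (hmax _ hs) (hmax _ hp))

/-- The circles: words whose consecutive colours are distinct. -/
def Circle (m : ℕ) : Type := {w : List (ℚ × Fin m) // (w.map Prod.fst).IsChain (· ≠ ·)}

/-- The cut points. -/
def CutPt (m : ℕ) : Type :=
  {p : ℚ × List (ℚ × Fin m) // (p.1 :: p.2.map Prod.fst).IsChain (· ≠ ·)}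

/-- The cut point `p = (q, w)` lies on its parent circle `w` and on the `m` circles
`(q, i) :: w`. -/
def On {m : ℕ} (p : CutPt m) (c : Circle m) : Prop :=
  c.1 = p.1.2 ∨ ∃ i, c.1 = (p.1.1, i) :: p.1.2

/-- The incidence relation as a symmetric relation on the disjoint union. -/
def AdjRel (m : ℕ) : CutPt m ⊕ Circle m → CutPt m ⊕ Circle m → Prop
  | Sum.inl p, Sum.inr c => On p c
  | Sum.inr c, Sum.inl p => On p c
  | Sum.inl _, Sum.inl _ => False
  | Sum.inr _, Sum.inr _ => False

/-- The standard `(m + 1, ∞)`-biregular tree. -/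
def tree (m : ℕ) : SimpleGraph (CutPt m ⊕ Circle m) where
  Adj := AdjRel m
  symm := ⟨by rintro (a | a) (b | b) h <;> exact h⟩
  loopless := ⟨by rintro (a | a) h <;> exact h⟩

/-- The circles of the standard tree. -/
def circ (m : ℕ) : CutPt m ⊕ Circle m → Prop
  | Sum.inl _ => False
  | Sum.inr _ => True

/-- The colour of a cut point. -/
def col (m : ℕ) : CutPt m ⊕ Circle m → ℚ
  | Sum.inl p => p.1.1
  | Sum.inr _ => 0

/-- The level of a vertex. -/
def lev (m : ℕ) : CutPt m ⊕ Circle m → ℕ
  | Sum.inl p => 2 * p.1.2.length + 1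
  | Sum.inr c => 2 * c.1.length

theorem On.cases {m : ℕ} {p : CutPt m} {c : Circle m} (h : On p c) :
    (c.1 = p.1.2) ∨ (∃ i, c.1 = (p.1.1, i) :: p.1.2) := h

/-- The parent circle of a cut point. -/
def parC {m : ℕ} (p : CutPt m) : Circle m := ⟨p.1.2, p.2.tail⟩

theorem isTree_tree (m : ℕ) : (tree m).IsTree := by
  refine isTree_of_level (tree m) (lev m) (Sum.inr ⟨[], by simp⟩) ?_ ?_
  · rintro (p | ⟨w, hw⟩) hne
    · refine ⟨Sum.inr (parC p), Or.inl rfl, ?_⟩
      change 2 * p.1.2.length < 2 * p.1.2.length + 1
      omega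
    · rcases w with _ | ⟨x, w⟩
      · exact absurd rfl hne
      · refine ⟨Sum.inl ⟨(x.1, w), hw⟩, Or.inr ⟨x.2, rfl⟩, ?_⟩
        change 2 * w.length + 1 < 2 * (w.length + 1)
        omega
  · rintro (p | c) (a | a) (b | b) ha hb hla hlb
    · exact absurd ha id
    · exact absurd ha id
    · exact absurd hb id
    · -- two circles through a cut point
      congr 1
      have key : ∀ a : Circle m, On p a → 2 * a.1.length ≤ 2 * p.1.2.length + 1 → a.1 = p.1.2 := by
        rintro a (h | ⟨i, h⟩) hl
        · exact h
        · rw [h, List.length_cons] at hl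
          omega
      exact Subtype.ext ((key a ha hla).trans (key b hb hlb).symm)
    · -- two cut points on a circle
      congr 1
      have key : ∀ a : CutPt m, On a c → 2 * a.1.2.length + 1 ≤ 2 * c.1.length →
          ∃ i, c.1 = (a.1.1, i) :: a.1.2 := by
        rintro a (h | h) hl
        · rw [h] at hl
          omega
        · exact h
      obtain ⟨i, hi⟩ := key a ha hla
      obtain ⟨j, hj⟩ := key b hb hlb
      rw [hi] at hj
      have e1 := List.cons_eq_cons.1 hj
      have e2 := congrArg Prod.fst e1.1
      exact Subtype.ext (Prod.ext e2 e1.2)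
    · exact absurd hb id
    · exact absurd ha id
    · exact absurd ha id

theorem legal_tree (m : ℕ) : Legal (m + 1) (tree m) (circ m) (col m) where
  tree := isTree_tree m
  types := by
    rintro (a | a) (b | b) h
    · exact absurd h id
    · exact ⟨fun h => h.elim, fun h => (h trivial).elim⟩
    · exact ⟨fun _ h => h, fun _ => trivial⟩
    · exact absurd h id
  colors := by
    rintro (p | c) hc q
    · exact hc.elim
    · obtain ⟨w, hw⟩ := c
      rcases w with _ | ⟨x, w⟩
      · refine ⟨Sum.inl ⟨(q, []), by simp⟩, ⟨Or.inl rfl, rfl⟩, ?_⟩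
        rintro (p | a) ⟨h1, h2⟩
        · congr 1
          rcases h1 with h1 | ⟨i, h1⟩
          · exact Subtype.ext (Prod.ext h2 h1.symm)
          · exact absurd h1 (by simp)
        · exact absurd h1 id
      · by_cases hq : q = x.1
        · subst hq
          refine ⟨Sum.inl ⟨(x.1, w), hw⟩, ⟨Or.inr ⟨x.2, rfl⟩, rfl⟩, ?_⟩
          rintro (p | a) ⟨h1, h2⟩
          · congr 1
            rcases h1 with h1 | ⟨i, h1⟩
            · have := p.2
              rw [← h1, List.map_cons, List.isChain_cons_cons] at this
              exact absurd h2 this.1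
            · have e1 := List.cons_eq_cons.1 h1
              exact Subtype.ext (Prod.ext h2 e1.2.symm)
          · exact absurd h1 id
        · refine ⟨Sum.inl ⟨(q, x :: w), ?_⟩, ⟨Or.inl rfl, rfl⟩, ?_⟩
          · rw [List.map_cons, List.isChain_cons_cons]
            exact ⟨hq, hw⟩
          · rintro (p | a) ⟨h1, h2⟩
            · congr 1
              rcases h1 with h1 | ⟨i, h1⟩
              · exact Subtype.ext (Prod.ext h2 h1.symm)
              · have e1 := List.cons_eq_cons.1 h1
                have e2 := congrArg Prod.fst e1.1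
                exact absurd (h2.symm.trans e2.symm) hq
            · exact absurd h1 id
  degree := by
    rintro (p | c) hc
    · have hchain : ∀ i : Fin m, (((p.1.1, i) :: p.1.2).map Prod.fst).IsChain (· ≠ ·) :=
        fun i => p.2
      let F : Option (Fin m) → CutPt m ⊕ Circle m := fun o => match o with
        | none => Sum.inr (parC p)
        | some i => Sum.inr ⟨(p.1.1, i) :: p.1.2, hchain i⟩
      have hF : Function.Injective F := by
        rintro (_ | i) (_ | j) h
        · rfl
        · have h1 := congrArg (fun c : Circle m => c.1.length) (Sum.inr_injective h)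
          change p.1.2.length = p.1.2.length + 1 at h1
          omega
        · have h1 := congrArg (fun c : Circle m => c.1.length) (Sum.inr_injective h)
          change p.1.2.length + 1 = p.1.2.length at h1
          omega
        · have h1 := congrArg (fun c : Circle m => c.1) (Sum.inr_injective h)
          have h2 := (List.cons_eq_cons.1 h1).1
          exact congrArg some (Prod.ext_iff.1 h2).2
      have hr : (tree m).neighborSet (Sum.inl p) = Set.range F := by
        ext x
        constructor
        · intro hx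
          rcases x with a | c
          · exact absurd hx id
          · rcases hx with h | ⟨i, h⟩
            · exact ⟨none, congrArg Sum.inr (Subtype.ext h.symm)⟩
            · exact ⟨some i, congrArg Sum.inr (Subtype.ext h.symm)⟩
        · rintro ⟨_ | i, rfl⟩
          · exact Or.inl rfl
          · exact Or.inr ⟨i, rfl⟩
      rw [hr, ← Set.image_univ, hF.encard_image, Set.encard_univ, ENat.card_eq_coe_fintype_card, Fintype.card_option, Fintype.card_fin]
    · exact (hc trivial).elim

/-! ### Rotations around two cut points of the root circle -/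

/-- The rotation on words. -/
def rotW (q : ℚ) : List (ℚ × Fin 3) → List (ℚ × Fin 3)
  | [] => []
  | [x] => [(x.1, if x.1 = q then x.2 + 1 else x.2)]
  | x :: y :: l => x :: rotW q (y :: l)

theorem rotW_fst (q : ℚ) (w : List (ℚ × Fin 3)) : (rotW q w).map Prod.fst = w.map Prod.fst := by
  induction w using rotW.induct with
  | case1 => rfl
  | case2 x => rfl
  | case3 x y l ih => rw [rotW, List.map_cons, ih, List.map_cons (a := x)]

theorem rotW_ne_nil {q : ℚ} {w : List (ℚ × Fin 3)} (h : w ≠ []) : rotW q w ≠ [] := by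
  rcases w with _ | ⟨x, _ | ⟨y, l⟩⟩
  · exact absurd rfl h
  · rw [rotW]; exact List.cons_ne_nil _ _
  · rw [rotW]; exact List.cons_ne_nil _ _

theorem rotW_cons {q : ℚ} (x : ℚ × Fin 3) {w : List (ℚ × Fin 3)} (h : w ≠ []) :
    rotW q (x :: w) = x :: rotW q w := by
  rcases w with _ | ⟨y, l⟩
  · exact absurd rfl h
  · rfl

theorem fin_three (i : Fin 3) : i + 1 + 1 + 1 = i := by
  revert i; decide

theorem rotW_three (q : ℚ) (w : List (ℚ × Fin 3)) : rotW q (rotW q (rotW q w)) = w := by
  induction w with
  | nil => rfl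
  | cons x w ih =>
    by_cases hw : w = []
    · subst hw
      change [(x.1, if x.1 = q then (if x.1 = q then (if x.1 = q then x.2 + 1 else x.2) + 1
        else (if x.1 = q then x.2 + 1 else x.2)) + 1 else
        (if x.1 = q then (if x.1 = q then x.2 + 1 else x.2) + 1
        else (if x.1 = q then x.2 + 1 else x.2)))] = [x]
      by_cases h : x.1 = q
      · simp only [h, if_true, fin_three]
        rw [← h]
      · simp only [h, if_false]
    · rw [rotW_cons x hw, rotW_cons x (rotW_ne_nil hw),
        rotW_cons x (rotW_ne_nil (rotW_ne_nil hw)), ih]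

theorem rotW_comm (q r : ℚ) (w : List (ℚ × Fin 3)) : rotW q (rotW r w) = rotW r (rotW q w) := by
  induction w with
  | nil => rfl
  | cons x w ih =>
    by_cases hw : w = []
    · subst hw
      change [(x.1, if x.1 = q then (if x.1 = r then x.2 + 1 else x.2) + 1
        else (if x.1 = r then x.2 + 1 else x.2))] =
        [(x.1, if x.1 = r then (if x.1 = q then x.2 + 1 else x.2) + 1
        else (if x.1 = q then x.2 + 1 else x.2))]
      by_cases h : x.1 = q <;> by_cases h' : x.1 = r <;> simp only [h, h', if_true, if_false] <;>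
        split_ifs <;> rfl
    · rw [rotW_cons x hw, rotW_cons x (rotW_ne_nil hw), rotW_cons x hw,
        rotW_cons x (rotW_ne_nil hw), ih]

/-- The rotation on circles. -/
def rotC (q : ℚ) (c : Circle 3) : Circle 3 := ⟨rotW q c.1, by rw [rotW_fst]; exact c.2⟩

/-- The rotation on cut points. -/
def rotP (q : ℚ) (p : CutPt 3) : CutPt 3 := ⟨(p.1.1, rotW q p.1.2), by
  change (p.1.1 :: (rotW q p.1.2).map Prod.fst).IsChain (· ≠ ·)
  rw [rotW_fst]; exact p.2⟩

/-- The rotation on the vertices. -/
def rotV (q : ℚ) : CutPt 3 ⊕ Circle 3 → CutPt 3 ⊕ Circle 3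
  | Sum.inl p => Sum.inl (rotP q p)
  | Sum.inr c => Sum.inr (rotC q c)

theorem rotV_three (q : ℚ) (v) : rotV q (rotV q (rotV q v)) = v := by
  rcases v with p | c
  · exact congrArg Sum.inl (Subtype.ext (Prod.ext rfl (rotW_three q _)))
  · exact congrArg Sum.inr (Subtype.ext (rotW_three q _))

theorem rotV_comm (q r : ℚ) (v) : rotV q (rotV r v) = rotV r (rotV q v) := by
  rcases v with p | c
  · exact congrArg Sum.inl (Subtype.ext (Prod.ext rfl (rotW_comm q r _)))
  · exact congrArg Sum.inr (Subtype.ext (rotW_comm q r _))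

theorem rot_on (q : ℚ) {p : CutPt 3} {c : Circle 3} (h : On p c) : On (rotP q p) (rotC q c) := by
  rcases h with h | ⟨i, h⟩
  · left
    change rotW q c.1 = rotW q p.1.2
    rw [h]
  · by_cases hw : p.1.2 = []
    · right
      rw [hw] at h
      refine ⟨if p.1.1 = q then i + 1 else i, ?_⟩
      change rotW q c.1 = (p.1.1, _) :: rotW q p.1.2
      rw [h, hw]
      rfl
    · right
      refine ⟨i, ?_⟩
      change rotW q c.1 = (p.1.1, i) :: rotW q p.1.2
      rw [h, rotW_cons _ hw]

theorem rot_adj (q : ℚ) {u v} (h : (tree 3).Adj u v) : (tree 3).Adj (rotV q u) (rotV q v) := by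
  rcases u with p | c <;> rcases v with p' | c'
  · exact absurd h id
  · exact rot_on q h
  · exact rot_on q h
  · exact absurd h id

/-- The rotation as an automorphism of the tree. -/
def rot (q : ℚ) : tree 3 ≃g tree 3 where
  toFun := rotV q
  invFun v := rotV q (rotV q v)
  left_inv v := rotV_three q v
  right_inv v := rotV_three q v
  map_rel_iff' := by
    intro u v
    constructor
    · intro h
      have := rot_adj q (rot_adj q h)
      change (tree 3).Adj (rotV q (rotV q (rotV q u))) (rotV q (rotV q (rotV q v))) at this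
      rwa [rotV_three, rotV_three] at this
    · exact fun h => rot_adj q h

theorem rot_mem (q : ℚ) : rot q ∈ U (tree 3) (circ 3) (col 3) := by
  constructor
  · rintro (p | c)
    · exact Iff.rfl
    · exact Iff.rfl
  · rintro (p | c) hc (p₁ | c₁) (p₂ | c₂) (p₃ | c₃) (p₄ | c₄) h₁ h₂ h₃ h₄ <;>
      exact Iff.rfl

/-- The rotation as an element of the universal group. -/
def R (q : ℚ) : U (tree 3) (circ 3) (col 3) := ⟨rot q, rot_mem q⟩

theorem R_three (q : ℚ) : R q * R q * R q = 1 :=
  Subtype.ext (RelIso.ext fun v => rotV_three q v)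

theorem R_comm (q r : ℚ) : R q * R r = R r * R q :=
  Subtype.ext (RelIso.ext fun v => rotV_comm q r v)

/-- The circle with the word of length one. -/
def tc (q : ℚ) (i : Fin 3) : Circle 3 := ⟨[(q, i)], by simp⟩

theorem rot_tc (q r : ℚ) (i : Fin 3) :
    rotV q (Sum.inr (tc r i)) = Sum.inr (tc r (if r = q then i + 1 else i)) := rfl

theorem ne_one_of {g : U (tree 3) (circ 3) (col 3)} {q : ℚ} {i : Fin 3}
    (h : g.1 (Sum.inr (tc q 0)) = Sum.inr (tc q i)) (hi : i ≠ 0) : g ≠ 1 := by
  rintro rfl
  have h1 : (Sum.inr (tc q 0) : CutPt 3 ⊕ Circle 3) = Sum.inr (tc q i) := h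
  have h2 := congrArg (fun c : Circle 3 => c.1) (Sum.inr_injective h1)
  have h3 : [(q, (0 : Fin 3))] = [(q, i)] := h2
  simp only [List.cons.injEq, Prod.mk.injEq, true_and, and_true] at h3
  exact hi h3.symm

theorem R0_ne : R 0 ≠ 1 := ne_one_of (q := 0) (i := 1) (rot_tc 0 0 0) (by decide)

theorem R1_ne : R 1 ≠ 1 := by
  refine ne_one_of (q := 1) (i := 1) ?_ (by decide)
  have h : rotV 1 (Sum.inr (tc 1 0)) = Sum.inr (tc 1 1) := by
    rw [rot_tc, if_pos rfl]
    rfl
  exact h

theorem R01_ne : R 0 * R 1 ≠ 1 := by
  refine ne_one_of (q := 0) (i := 1) ?_ (by decide)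
  have h : rotV 0 (rotV 1 (Sum.inr (tc 0 0))) = Sum.inr (tc 0 1) := by
    rw [rot_tc, if_neg (by norm_num), rot_tc, if_pos rfl]
    rfl
  exact h

theorem R001_ne : R 0 * R 0 * R 1 ≠ 1 := by
  refine ne_one_of (q := 0) (i := 2) ?_ (by decide)
  have h : rotV 0 (rotV 0 (rotV 1 (Sum.inr (tc 0 0)))) = Sum.inr (tc 0 2) := by
    rw [rot_tc, if_neg (by norm_num), rot_tc, if_pos rfl, rot_tc, if_pos rfl]
    rfl
  exact h

end Q20.Rabbit
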