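import Mathlib
import Pool.Agent.Q20.Rabbit.Model

/-!
Uniqueness of the `(n, ∞)`-biregular tree with a legal colouring.
-/

namespace Q20.Rabbit

theorem chain_map {V V' : Type*} {G : SimpleGraph V} {T : SimpleGraph V'} (φ : G →g T)
    (inj : ∀ v a b, G.Adj v a → G.Adj v b → φ a = φ b → a = b) {a b : V} (p : G.Walk a b)
    (hp : p.IsPath) : (p.map φ).edges.IsChain (· ≠ ·) := by
  induction p with
  | nil => simp
  | cons h p ih =>
    cases p with
    | nil => simp
    | cons h' q =>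
      have hpp := hp
      rw [SimpleGraph.Walk.cons_isPath_iff] at hpp
      have ih' := ih hpp.1
      rw [SimpleGraph.Walk.map_cons, SimpleGraph.Walk.edges_cons, SimpleGraph.Walk.map_cons,
        SimpleGraph.Walk.edges_cons, List.isChain_cons_cons]
      refine ⟨?_, ?_⟩
      · intro he
        rw [Sym2.eq_iff] at he
        rcases he with ⟨h1, h2⟩ | ⟨h1, -⟩
        · exact (φ.map_adj h).ne h1
        · have := inj _ _ _ h.symm h' h1
          subst this
          apply hpp.2
          rw [SimpleGraph.Walk.support_cons]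
          exact List.mem_cons_of_mem _ q.start_mem_support
      · rw [SimpleGraph.Walk.map_cons, SimpleGraph.Walk.edges_cons] at ih'
        exact ih'

theorem cover_inj {V V' : Type*} {G : SimpleGraph V} {T : SimpleGraph V'} (hG : G.Connected)
    (hT : T.IsTree) (φ : G →g T) (inj : ∀ v a b, G.Adj v a → G.Adj v b → φ a = φ b → a = b) :
    Function.Injective φ := by
  intro a b hab
  obtain ⟨p, hp, -⟩ := hG.exists_path_of_dist a b
  have h1 : (p.map φ).IsPath := (hT.isAcyclic.isPath_iff_isChain _).2 (chain_map φ inj p hp)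
  have h2 := length_eq_dist hT h1
  rw [SimpleGraph.Walk.length_map, hab, SimpleGraph.dist_self] at h2
  exact SimpleGraph.Walk.eq_of_length_eq_zero h2

theorem cover_surj {V V' : Type*} {G : SimpleGraph V} {T : SimpleGraph V'} [Nonempty V]
    (hT : T.Connected) (φ : G →g T) (surj : ∀ v y, T.Adj (φ v) y → ∃ a, G.Adj v a ∧ φ a = y) :
    Function.Surjective φ := by
  intro y
  obtain ⟨v⟩ := ‹Nonempty V›
  obtain ⟨p⟩ := hT.preconnected (φ v) y
  have key : ∀ {x y : V'} (_ : T.Walk x y), (∃ a, φ a = x) → ∃ a, φ a = y := by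
    intro x y p
    induction p with
    | nil => exact id
    | cons h p ih =>
      rintro ⟨a, rfl⟩
      obtain ⟨b, -, hb⟩ := surj a _ h
      exact ih ⟨b, hb⟩
  exact key p ⟨v, rfl⟩

section Build

variable {V' : Type*} {T : SimpleGraph V'} {circ' : V' → Prop} {col' : V' → ℚ} {m : ℕ}

/-- The data for walking in the tree. -/
structure Nav (T : SimpleGraph V') (circ' : V' → Prop) (col' : V' → ℚ) (m : ℕ) where
  r : V'
  hr : circ' r
  nb : V' → ℚ → V'
  ch : V' → V' → Fin m → V'
  nb_adj : ∀ c q, circ' c → T.Adj c (nb c q)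
  nb_col : ∀ c q, circ' c → col' (nb c q) = q
  nb_eq : ∀ c p, circ' c → T.Adj c p → nb c (col' p) = p
  ch_adj : ∀ p c, ¬ circ' p → T.Adj p c → ∀ i, T.Adj p (ch p c i)
  ch_ne : ∀ p c, ¬ circ' p → T.Adj p c → ∀ i, ch p c i ≠ c
  ch_inj : ∀ p c, ¬ circ' p → T.Adj p c → ∀ i j, ch p c i = ch p c j → i = j
  ch_surj : ∀ p c, ¬ circ' p → T.Adj p c → ∀ x, T.Adj p x → x = c ∨ ∃ i, ch p c i = x

theorem exists_nav (hL : Legal (m + 1) T circ' col') : Nonempty (Nav T circ' col' m) := by
  classical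
  obtain ⟨v⟩ := hL.tree.connected.nonempty
  have hr : ∃ r, circ' r := by
    by_cases hv : circ' v
    · exact ⟨v, hv⟩
    · have hd := hL.degree v hv
      have hne : (T.neighborSet v).Nonempty := by
        rw [← Set.encard_pos, hd]
        simp
      obtain ⟨p, hp⟩ := hne
      refine ⟨p, ?_⟩
      by_contra hcp
      exact hv ((hL.types v p hp).2 hcp)
  obtain ⟨r, hr⟩ := hr
  have h1 : ∀ c q, ∃ p, circ' c → T.Adj c p ∧ col' p = q := by
    intro c q
    by_cases hc : circ' c
    · obtain ⟨p, hp, -⟩ := hL.colors c hc q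
      exact ⟨p, fun _ => hp⟩
    · exact ⟨c, fun h => absurd h hc⟩
  choose nb hnb using h1
  have h2 : ∀ p c, ∃ f : Fin m → V', ¬ circ' p → T.Adj p c →
      Function.Injective f ∧ Set.range f = T.neighborSet p \ {c} := by
    intro p c
    by_cases hp : ¬ circ' p ∧ T.Adj p c
    · have hd := hL.degree p hp.1
      have hm : (T.neighborSet p \ {c}).encard = m := by
        have h3 := Set.encard_sdiff_singleton_add_one (s := T.neighborSet p) (a := c) hp.2
        rw [hd] at h3
        have h4 : (T.neighborSet p \ {c}).encard + 1 = (m : ℕ∞) + 1 := by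
          rw [h3]; push_cast; rfl
        exact ENat.add_left_injective_of_ne_top (n := 1) (by simp) h4
      have hfin : (T.neighborSet p \ {c}).Finite := Set.finite_of_encard_eq_coe hm
      have hn : (T.neighborSet p \ {c}).ncard = m := by
        rw [Set.ncard_def, hm]; rfl
      have := hfin.fintype
      have hcard : Fintype.card (T.neighborSet p \ {c} : Set V') = m := by
        rw [← Nat.card_coe_set_eq, Nat.card_eq_fintype_card] at hn
        exact hn
      let e := (Fintype.equivFinOfCardEq hcard).symm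
      refine ⟨fun i => (e i).1, fun _ _ => ⟨fun i j hij => e.injective (Subtype.ext hij), ?_⟩⟩
      ext x
      constructor
      · rintro ⟨i, rfl⟩
        exact (e i).2
      · intro hx
        exact ⟨e.symm ⟨x, hx⟩, by simp⟩
    · exact ⟨fun _ => p, fun h h' => absurd ⟨h, h'⟩ hp⟩
  choose ch hch using h2
  refine ⟨⟨r, hr, nb, ch, fun c q hc => (hnb c q hc).1, fun c q hc => (hnb c q hc).2, ?_, ?_, ?_, ?_,
    ?_⟩⟩
  · intro c p hc hcp
    exact (hL.colors c hc (col' p)).unique (hnb c _ hc) ⟨hcp, rfl⟩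
  · intro p c hp hpc i
    have : ch p c i ∈ Set.range (ch p c) := ⟨i, rfl⟩
    rw [(hch p c hp hpc).2] at this
    exact this.1
  · intro p c hp hpc i
    have : ch p c i ∈ Set.range (ch p c) := ⟨i, rfl⟩
    rw [(hch p c hp hpc).2] at this
    exact this.2
  · intro p c hp hpc i j hij
    exact (hch p c hp hpc).1 hij
  · intro p c hp hpc x hx
    by_cases hxc : x = c
    · exact Or.inl hxc
    · right
      have : x ∈ T.neighborSet p \ {c} := ⟨hx, hxc⟩
      rw [← (hch p c hp hpc).2] at this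
      exact this

/-- The circle with a given address. -/
def Nav.fc (N : Nav T circ' col' m) : List (ℚ × Fin m) → V'
  | [] => N.r
  | x :: w => N.ch (N.nb (N.fc w) x.1) (N.fc w) x.2

variable (N : Nav T circ' col' m)

/-- The vertex with a given address. -/
def Nav.f : CutPt m ⊕ Circle m → V'
  | Sum.inl p => N.nb (N.fc p.1.2) p.1.1
  | Sum.inr c => N.fc c.1

theorem Nav.fc_circ (hL : Legal (m + 1) T circ' col') (w : List (ℚ × Fin m)) :
    circ' (N.fc w) := by
  induction w with
  | nil => exact N.hr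
  | cons x w ih =>
    have h1 := N.nb_adj (N.fc w) x.1 ih
    have h2 : ¬ circ' (N.nb (N.fc w) x.1) := (hL.types _ _ h1).1 ih
    have h3 := N.ch_adj _ _ h2 h1.symm x.2
    by_contra h4
    exact h2 ((hL.types _ _ h3).2 h4)

theorem Nav.nb_not (hL : Legal (m + 1) T circ' col') (w : List (ℚ × Fin m)) (q : ℚ) :
    ¬ circ' (N.nb (N.fc w) q) :=
  (hL.types _ _ (N.nb_adj _ q (N.fc_circ hL w))).1 (N.fc_circ hL w)

theorem Nav.on_adj (hL : Legal (m + 1) T circ' col') {p : CutPt m} {c : Circle m} (h : On p c) :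
    T.Adj (N.f (Sum.inl p)) (N.f (Sum.inr c)) := by
  have h1 := N.nb_adj (N.fc p.1.2) p.1.1 (N.fc_circ hL _)
  rcases h with h | ⟨i, h⟩
  · change T.Adj (N.nb (N.fc p.1.2) p.1.1) (N.fc c.1)
    rw [h]
    exact h1.symm
  · change T.Adj (N.nb (N.fc p.1.2) p.1.1) (N.fc c.1)
    rw [h]
    exact N.ch_adj _ _ (N.nb_not hL _ _) h1.symm i

/-- The homomorphism of graphs. -/
def Nav.hom (hL : Legal (m + 1) T circ' col') : tree m →g T where
  toFun := N.f
  map_rel' := by
    rintro (p | c) (p' | c') h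
    · exact absurd h id
    · exact N.on_adj hL h
    · exact (N.on_adj hL h).symm
    · exact absurd h id

theorem Nav.f_circ (hL : Legal (m + 1) T circ' col') (v) : circ' (N.f v) ↔ circ m v := by
  rcases v with p | c
  · exact ⟨fun h => absurd h (N.nb_not hL _ _), fun h => h.elim⟩
  · exact ⟨fun _ => trivial, fun _ => N.fc_circ hL _⟩

theorem Nav.f_col (hL : Legal (m + 1) T circ' col') (p : CutPt m) :
    col' (N.f (Sum.inl p)) = col m (Sum.inl p) :=
  N.nb_col _ _ (N.fc_circ hL _)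

theorem Nav.bij (hL : Legal (m + 1) T circ' col') : Function.Bijective N.f := by
  constructor
  · refine cover_inj (isTree_tree m).connected hL.tree (N.hom hL) ?_
    rintro (p | c) (a | a) (b | b) ha hb hab
    · exact absurd ha id
    · exact absurd ha id
    · exact absurd hb id
    · -- circles around a cut point
      have h1 := N.nb_adj (N.fc p.1.2) p.1.1 (N.fc_circ hL _)
      have hp := N.nb_not hL p.1.2 p.1.1
      congr 1
      have hab' : N.fc a.1 = N.fc b.1 := hab
      rcases ha with ha | ⟨i, ha⟩ <;> rcases hb with hb | ⟨j, hb⟩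
      · exact Subtype.ext (ha.trans hb.symm)
      · rw [ha, hb] at hab'
        exact absurd hab'.symm (N.ch_ne _ _ hp h1.symm j)
      · rw [ha, hb] at hab'
        exact absurd hab' (N.ch_ne _ _ hp h1.symm i)
      · rw [ha, hb] at hab'
        have := N.ch_inj _ _ hp h1.symm i j hab'
        subst this
        exact Subtype.ext (ha.trans hb.symm)
    · -- cut points on a circle
      have h1 : col m (Sum.inl a) = col m (Sum.inl b) := by
        rw [← N.f_col hL a, ← N.f_col hL b]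
        exact congrArg col' hab
      exact ((legal_tree m).colors (Sum.inr c) trivial _).unique ⟨ha, h1⟩ ⟨hb, rfl⟩
    · exact absurd hb id
    · exact absurd ha id
    · exact absurd ha id
  · have : Nonempty (CutPt m ⊕ Circle m) := ⟨Sum.inr ⟨[], by simp⟩⟩
    refine cover_surj hL.tree.connected (N.hom hL) ?_
    rintro (p | c) y hy
    · have h1 := N.nb_adj (N.fc p.1.2) p.1.1 (N.fc_circ hL _)
      rcases N.ch_surj _ _ (N.nb_not hL p.1.2 p.1.1) h1.symm y hy with h | ⟨i, h⟩
      · exact ⟨Sum.inr (parC p), Or.inl rfl, h.symm⟩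
      · exact ⟨Sum.inr ⟨(p.1.1, i) :: p.1.2, p.2⟩, Or.inr ⟨i, rfl⟩, h⟩
    · have hy' : T.Adj (N.fc c.1) y := hy
      obtain ⟨a, ⟨ha1, ha2⟩, -⟩ := (legal_tree m).colors (Sum.inr c) trivial (col' y)
      refine ⟨a, ha1, ?_⟩
      rcases a with a | a
      · have h2 : T.Adj (N.f (Sum.inl a)) (N.f (Sum.inr c)) := N.on_adj hL ha1
        refine (hL.colors (N.fc c.1) (N.fc_circ hL _) (col' y)).unique ⟨h2.symm, ?_⟩ ⟨hy', rfl⟩
        exact (N.f_col hL a).trans ha2
      · exact absurd ha1 id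

theorem Nav.loc_surj (hL : Legal (m + 1) T circ' col') (v) (y : V') (hy : T.Adj (N.f v) y) :
    ∃ a, (tree m).Adj v a ∧ N.f a = y := by
  rcases v with p | c
  · have h1 := N.nb_adj (N.fc p.1.2) p.1.1 (N.fc_circ hL _)
    rcases N.ch_surj _ _ (N.nb_not hL p.1.2 p.1.1) h1.symm y hy with h | ⟨i, h⟩
    · exact ⟨Sum.inr (parC p), Or.inl rfl, h.symm⟩
    · exact ⟨Sum.inr ⟨(p.1.1, i) :: p.1.2, p.2⟩, Or.inr ⟨i, rfl⟩, h⟩
  · have hy' : T.Adj (N.fc c.1) y := hy
    obtain ⟨a, ⟨ha1, ha2⟩, -⟩ := (legal_tree m).colors (Sum.inr c) trivial (col' y)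
    refine ⟨a, ha1, ?_⟩
    rcases a with a | a
    · have h2 : T.Adj (N.f (Sum.inl a)) (N.f (Sum.inr c)) := N.on_adj hL ha1
      refine (hL.colors (N.fc c.1) (N.fc_circ hL _) (col' y)).unique ⟨h2.symm, ?_⟩ ⟨hy', rfl⟩
      exact (N.f_col hL a).trans ha2
    · exact absurd ha1 id

/-- The isomorphism of trees. -/
noncomputable def Nav.iso (hL : Legal (m + 1) T circ' col') : tree m ≃g T where
  toEquiv := Equiv.ofBijective N.f (N.bij hL)
  map_rel_iff' := by
    intro u v
    constructor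
    · intro h
      have h' : T.Adj (N.f u) (N.f v) := h
      obtain ⟨a, ha, hav⟩ := N.loc_surj hL u _ h'
      have := (N.bij hL).1 hav
      rwa [this] at ha
    · exact fun h => (N.hom hL).map_rel h

theorem exists_iso (hL : Legal (m + 1) T circ' col') : ∃ Φ : tree m ≃g T,
    (∀ v, circ' (Φ v) ↔ circ m v) ∧ ∀ v, ¬ circ m v → col' (Φ v) = col m v := by
  obtain ⟨N⟩ := exists_nav hL
  refine ⟨N.iso hL, N.f_circ hL, ?_⟩
  rintro (p | c) hv
  · exact N.f_col hL p
  · exact absurd trivial hv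

end Build

/-- Conjugation by an isomorphism which preserves types and colours. -/
def conj {V V' : Type*} {T : SimpleGraph V} {T' : SimpleGraph V'} (Φ : T ≃g T') (g : T ≃g T) :
    T' ≃g T' := (Φ.symm.trans g).trans Φ

theorem conj_app {V V' : Type*} {T : SimpleGraph V} {T' : SimpleGraph V'} (Φ : T ≃g T')
    (g : T ≃g T) (v : V') : conj Φ g v = Φ (g (Φ.symm v)) := rfl

theorem conj_mem {V V' : Type*} {T : SimpleGraph V} {T' : SimpleGraph V'} {circ : V → Prop}
    {circ' : V' → Prop} {col : V → ℚ} {col' : V' → ℚ}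
    (Φ : T ≃g T') (hc : ∀ v, circ' (Φ v) ↔ circ v) (hcol : ∀ v, ¬ circ v → col' (Φ v) = col v)
    (ht : ∀ u v, T.Adj u v → (circ u ↔ ¬ circ v))
    {g : T ≃g T} (hg : g ∈ U T circ col) : conj Φ g ∈ U T' circ' col' := by
  have hsym : ∀ v, circ (Φ.symm v) ↔ circ' v := by
    intro v
    rw [← hc, Φ.apply_symm_apply]
  refine ⟨fun v => ?_, fun c hcc p₁ p₂ p₃ p₄ h₁ h₂ h₃ h₄ => ?_⟩
  · rw [conj_app, hc, hg.1, hsym]
  · have hadj : ∀ p, T'.Adj c p → T.Adj (Φ.symm c) (Φ.symm p) := fun p h =>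
      Φ.symm.map_rel_iff.2 h
    have hcc' := (hsym c).2 hcc
    have hn : ∀ p, T'.Adj c p → ¬ circ (Φ.symm p) := fun p h => (ht _ _ (hadj p h)).1 hcc'
    have e1 : ∀ p, T'.Adj c p → col' (conj Φ g p) = col (g (Φ.symm p)) := by
      intro p hp
      rw [conj_app]
      exact hcol _ (fun h => hn p hp ((hg.1 _).1 h))
    have e2 : ∀ p, T'.Adj c p → col' p = col (Φ.symm p) := by
      intro p hp
      rw [← hcol _ (hn p hp), Φ.apply_symm_apply]
    rw [e1 _ h₁, e1 _ h₂, e1 _ h₃, e1 _ h₄, e2 _ h₁, e2 _ h₂, e2 _ h₃, e2 _ h₄]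
    exact hg.2 _ hcc' _ _ _ _ (hadj _ h₁) (hadj _ h₂) (hadj _ h₃) (hadj _ h₄)

/-- Conjugation as a homomorphism of universal groups. -/
def conjHom {V V' : Type*} {T : SimpleGraph V} {T' : SimpleGraph V'} {circ : V → Prop}
    {circ' : V' → Prop} {col : V → ℚ} {col' : V' → ℚ}
    (Φ : T ≃g T') (hc : ∀ v, circ' (Φ v) ↔ circ v) (hcol : ∀ v, ¬ circ v → col' (Φ v) = col v)
    (ht : ∀ u v, T.Adj u v → (circ u ↔ ¬ circ v)) : U T circ col →* U T' circ' col' where
  toFun g := ⟨conj Φ g.1, conj_mem Φ hc hcol ht g.2⟩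
  map_one' := Subtype.ext (RelIso.ext fun v => Φ.apply_symm_apply v)
  map_mul' g h := Subtype.ext (RelIso.ext fun v => by
    change Φ (g.1 (h.1 (Φ.symm v))) = Φ (g.1 (Φ.symm (Φ (h.1 (Φ.symm v)))))
    rw [Φ.symm_apply_apply])

theorem conjHom_inj {V V' : Type*} {T : SimpleGraph V} {T' : SimpleGraph V'} {circ : V → Prop}
    {circ' : V' → Prop} {col : V → ℚ} {col' : V' → ℚ}
    (Φ : T ≃g T') (hc : ∀ v, circ' (Φ v) ↔ circ v) (hcol : ∀ v, ¬ circ v → col' (Φ v) = col v)
    (ht : ∀ u v, T.Adj u v → (circ u ↔ ¬ circ v)) :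
    Function.Injective (conjHom (col := col) (col' := col') Φ hc hcol ht) := by
  intro g h hgh
  have h1 := congrArg Subtype.val hgh
  refine Subtype.ext (RelIso.ext fun v => ?_)
  have h2 := DFunLike.congr_fun h1 (Φ v)
  change Φ (g.1 (Φ.symm (Φ v))) = Φ (h.1 (Φ.symm (Φ v))) at h2
  rw [Φ.symm_apply_apply] at h2
  exact Φ.injective h2

end Q20.Rabbit
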